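import Pool.Agent.W998.KG.Stm3
import Pool.Agent.W880.KG.KIE
import Pool.Agent.W191.KG.SWP

/-!
# Project KG, part TAS: Tashkinov's theorem
-/

set_option autoImplicit false

namespace Pool.Agent.W131.KG

open Pool.Agent.W998.KG
open Pool.Agent.Results.MP_633d19_co.SmallDegree
open Pool.Agent.Results.MP_633d19_co.SmallDegree.MGraph

/-- trees with `n + 1` vertices and path number at most `p` are elementary -/
def EL {V E : Type} (G : MGraph V E) (k p n : ℕ) : Prop :=
  ∀ (y : ℕ → V) (f : ℕ → E) (pr : ℕ → ℕ) (c : E → Option (Fin k)), TT G n y f pr c →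
    (∀ t, p ≤ t → t < n → pr t = t) → ∀ i j, i ≤ n → j ≤ n → i ≠ j → ∀ a,
    G.Miss c (y i) a → G.Miss c (y j) a → False

section

variable {V E : Type} {G : MGraph V E} {k n p : ℕ} {y : ℕ → V} {f : ℕ → E} {pr : ℕ → ℕ}
  {c : E → Option (Fin k)}

lemma pre (h : TT G n y f pr c) {m : ℕ} (hm : m ≤ n) : TT G m y f pr c where
  pp := h.pp
  inj := fun i hi j hj => h.inj i (hi.trans hm) j (hj.trans hm)
  le := fun i hi => h.le i (by omega)
  ed := fun i hi => h.ed i (by omega)
  none_iff := h.none_iff
  col := fun i hi => h.col i (by omega)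

lemma ttswap (h : TT G n y f pr c) {c' : E → Option (Fin k)} {a b : Fin k} (g1 : G.PP c')
    (g2 : ∀ e, c' e = none ↔ c e = none)
    (g3 : ∀ e x, x ≠ a → x ≠ b → (c' e = some x ↔ c e = some x))
    (hcol : ∀ t < n, 1 ≤ t → ∀ x, (x = a ∨ x = b) → c (f t) = some x →
      (c' (f t) = some x ∧ ∃ u ≤ t, G.Miss c' (y u) x) ∨
      ((∃ u ≤ t, G.Miss c' (y u) a) ∧ (∃ u ≤ t, G.Miss c' (y u) b))) : TT G n y f pr c' where
  pp := g1
  inj := h.inj
  le := h.le
  ed := h.ed
  none_iff := fun e => (g2 e).trans (h.none_iff e)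
  col := by
    intro t ht ht1
    obtain ⟨x, hx, s, hs, hsx⟩ := h.col t ht ht1
    by_cases hxab : x ≠ a ∧ x ≠ b
    · refine ⟨x, (g3 _ x hxab.1 hxab.2).mpr hx, s, hs, ?_⟩
      intro e he h2
      exact hsx e he ((g3 _ x hxab.1 hxab.2).mp h2)
    · have hxab' : x = a ∨ x = b := by
        by_contra hcon
        push Not at hcon
        exact hxab hcon
      rcases hcol t ht ht1 x hxab' hx with ⟨h0, h1⟩ | ⟨h1, h2⟩
      · exact ⟨x, h0, h1⟩
      have hnn : c' (f t) ≠ none := by
        rw [Ne, g2, hx]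
        simp
      obtain ⟨z, hz⟩ := Option.ne_none_iff_exists'.mp hnn
      have hzab : z = a ∨ z = b := by
        by_contra hcon
        push Not at hcon
        have h3 := (g3 _ z hcon.1 hcon.2).mp hz
        rw [hx] at h3
        have h4 : x = z := Option.some.inj h3
        exact hxab (by rw [h4]; exact hcon)
      rcases hzab with rfl | rfl
      · obtain ⟨u, hu, hu'⟩ := h1
        exact ⟨z, hz, u, hu, hu'⟩
      · obtain ⟨u, hu, hu'⟩ := h2
        exact ⟨z, hz, u, hu, hu'⟩

lemma miss_keep {c' : E → Option (Fin k)} {a b : Fin k}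
    (g3 : ∀ e x, x ≠ a → x ≠ b → (c' e = some x ↔ c e = some x)) {v : V} {x : Fin k}
    (hxa : x ≠ a) (hxb : x ≠ b) (h : G.Miss c v x) : G.Miss c' v x :=
  fun e he h2 => h e he ((g3 _ x hxa hxb).mp h2)

/-- elementarity of prefixes -/
lemma out (IHn : ∀ n' < n, EL G k p n') (h : TT G n y f pr c)
    (hp : ∀ t, p ≤ t → t < n → pr t = t) {i j : ℕ} (hij : i < j) (hj : j < n) {a : Fin k}
    (ha : G.Miss c (y i) a) (hb : G.Miss c (y j) a) : False :=
  IHn j hj y f pr c (pre h hj.le) (fun t h1 h2 => hp t h1 (by omega)) i j (by omega) le_rfl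
    (by omega) a ha hb

lemma unused (IHn : ∀ n' < n, EL G k p n') (h : TT G n y f pr c)
    (hp : ∀ t, p ≤ t → t < n → pr t = t) {j : ℕ} (hj : j < n) {b : Fin k}
    (hb : G.Miss c (y j) b) {t : ℕ} (ht1 : 1 ≤ t) (ht : t < j) : c (f t) ≠ some b := by
  intro hc
  obtain ⟨x, hx, s, hs, hsx⟩ := h.col t (by omega) ht1
  rw [hc] at hx
  have : b = x := Option.some.inj hx
  subst this
  exact out IHn h hp (by omega) hj hsx hb

/-- Kempe claim -/
lemma kc (IHn : ∀ n' < n, EL G k p n') (h : TT G n y f pr c)
    (hp : ∀ t, p ≤ t → t < n → pr t = t) {i j : ℕ} (hij : i < j) (hj : j < n) {a b : Fin k}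
    (ha : G.Miss c (y i) a) (hb : G.Miss c (y j) b)
    (hu : ∀ t, 1 ≤ t → t < j → c (f t) ≠ some a) :
    ∃ m : ℤ, y i = ((G.iv h.pp b * G.iv h.pp a) ^ m) (y j) := by
  by_contra hcon
  obtain ⟨c'', g1, g2, g3, g4, g5⟩ := G.swap_comp h.pp b a (y j) hb
  have hT : TT G j y f pr c'' := by
    apply ttswap (pre h hj.le) g1 g2 g3
    intro t ht ht1 x hx hc
    exfalso
    rcases hx with rfl | rfl
    · exact unused IHn h hp hj hb ht1 ht hc
    · exact hu t ht1 ht hc
  exact IHn j hj y f pr c'' hT (fun t h1 h2 => hp t h1 (by omega)) i j (by omega) le_rfl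
    (by omega) a (g5 (y i) hcon a ha) g4

/-- position of a third vertex -/
lemma sep [Finite V] (hc : G.PP c) {a b : Fin k} {u v w : V} (hu : G.Miss c u a)
    (hv : G.Miss c v b) (hw : G.Miss c w a) (huv : u ≠ v) (hwu : w ≠ u) (hwv : w ≠ v)
    (hm : ∃ m : ℤ, u = ((G.iv hc b * G.iv hc a) ^ m) v) :
    (¬ ∃ n : ℤ, u = ((G.iv hc a * G.iv hc b) ^ n) w) ∧
    (¬ ∃ n : ℤ, v = ((G.iv hc a * G.iv hc b) ^ n) w) ∧
    (¬ ∃ n : ℤ, w = ((G.iv hc b * G.iv hc a) ^ n) v) := by
  obtain ⟨m, hm⟩ := hm
  have hinv : G.iv hc b * G.iv hc a = (G.iv hc a * G.iv hc b)⁻¹ := by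
    rw [mul_inv_rev, inv_eq_of_mul_eq_one_left (G.iv_sq hc a),
      inv_eq_of_mul_eq_one_left (G.iv_sq hc b)]
  have hm' : v = ((G.iv hc a * G.iv hc b) ^ m) u := by
    rw [hm, hinv, inv_zpow, ← Equiv.Perm.mul_apply, mul_inv_cancel, Equiv.Perm.one_apply]
  have hthree : ∀ n n' : ℤ, u = ((G.iv hc a * G.iv hc b) ^ n) w →
      v = ((G.iv hc a * G.iv hc b) ^ n') w → False := by
    intro n n' hn hn'
    have := three_fixed _ _ (G.iv_sq hc a) (G.iv_sq hc b) w u v
      (by rw [iv_apply]; exact G.nb_miss hw) n n' hn hn'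
      (Or.inl (by rw [iv_apply]; exact G.nb_miss hu))
      (Or.inr (by rw [iv_apply]; exact G.nb_miss hv))
    rcases this with h2 | h2 | h2
    · exact hwu h2
    · exact hwv h2
    · exact huv h2
  refine ⟨?_, ?_, ?_⟩
  · rintro ⟨n, hn⟩
    refine hthree n (m + n) hn ?_
    rw [zpow_add, Equiv.Perm.mul_apply, ← hn]
    exact hm'
  · rintro ⟨n, hn⟩
    refine hthree (-m + n) n ?_ hn
    rw [zpow_add, Equiv.Perm.mul_apply, ← hn, hm', ← Equiv.Perm.mul_apply, ← zpow_add,
      neg_add_cancel, zpow_zero, Equiv.Perm.one_apply]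
  · rintro ⟨n, hn⟩
    have := three_fixed _ _ (G.iv_sq hc b) (G.iv_sq hc a) v u w
      (by rw [iv_apply]; exact G.nb_miss hv) m n hm hn
      (Or.inr (by rw [iv_apply]; exact G.nb_miss hu))
      (Or.inr (by rw [iv_apply]; exact G.nb_miss hw))
    rcases this with h2 | h2 | h2
    · exact huv h2.symm
    · exact hwv h2.symm
    · exact hwu h2.symm

lemma sep3 [Finite V] (hc : G.PP c) {a b : Fin k} {u v w : V} (hu : G.Miss c u a)
    (hv : G.Miss c v b) (hw : G.Miss c w a ∨ G.Miss c w b) (huv : u ≠ v) (hwu : w ≠ u)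
    (hwv : w ≠ v) (hm : ∃ m : ℤ, u = ((G.iv hc b * G.iv hc a) ^ m) v) :
    ¬ ∃ n : ℤ, w = ((G.iv hc b * G.iv hc a) ^ n) v := by
  obtain ⟨m, hm⟩ := hm
  rintro ⟨n, hn⟩
  have := three_fixed _ _ (G.iv_sq hc b) (G.iv_sq hc a) v u w
    (by rw [iv_apply]; exact G.nb_miss hv) m n hm hn
    (Or.inr (by rw [iv_apply]; exact G.nb_miss hu))
    (by
      rcases hw with hw | hw
      · exact Or.inr (by rw [iv_apply]; exact G.nb_miss hw)
      · exact Or.inl (by rw [iv_apply]; exact G.nb_miss hw))
  rcases this with h2 | h2 | h2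
  · exact huv h2.symm
  · exact hwv h2.symm
  · exact hwu h2.symm

/-- exchange on the component of `x` with full information -/
lemma swf (hc : G.PP c) (a b : Fin k) (x : V) (hx : G.Miss c x a) :
    ∃ c' : E → Option (Fin k), G.PP c' ∧ (∀ e, c' e = none ↔ c e = none) ∧
      (∀ e z, z ≠ a → z ≠ b → (c' e = some z ↔ c e = some z)) ∧
      (∀ v, (∃ n : ℤ, v = ((G.iv hc a * G.iv hc b) ^ n) x) → ∀ z, G.Miss c v z →
        G.Miss c' v (Equiv.swap a b z)) ∧
      (∀ v, (¬ ∃ n : ℤ, v = ((G.iv hc a * G.iv hc b) ^ n) x) → ∀ z, G.Miss c v z →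
        G.Miss c' v z) ∧
      (∀ e w, w ∈ G.ends e → (¬ ∃ n : ℤ, w = ((G.iv hc a * G.iv hc b) ^ n) x) →
        c' e = c e) := by
  have hs := G.iv_sq hc a
  have ht := G.iv_sq hc b
  have hsx : G.iv hc a x = x := by rw [iv_apply]; exact G.nb_miss hx
  have hcl : ∀ e u w, u ∈ G.ends e → w ∈ G.ends e → (c e = some a ∨ c e = some b) →
      u ∈ {v | ∃ n : ℤ, v = ((G.iv hc a * G.iv hc b) ^ n) x} →
      w ∈ {v | ∃ n : ℤ, v = ((G.iv hc a * G.iv hc b) ^ n) x} := by
    rintro e u w hu hw hcol ⟨n, hn⟩
    by_cases huw : w = u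
    · exact ⟨n, by rw [huw, hn]⟩
    have hends : G.ends e = s(u, w) := (Sym2.mem_and_mem_iff (Ne.symm huw)).mp ⟨hu, hw⟩
    rcases hcol with hcol | hcol
    · refine ⟨-n, ?_⟩
      rw [← dih_s _ _ hs ht x hsx, ← hn, iv_apply, G.nb_eq hc hcol hends]
    · refine ⟨-n - 1, ?_⟩
      rw [← dih_t _ _ hs ht x hsx, ← hn, iv_apply, G.nb_eq hc hcol hends]
  obtain ⟨c', h1, h2, h3, h4, h5, h6, h7⟩ := Pool.Agent.W191.KG.SWP.main G hc a b _ hcl
  refine ⟨c', h1, h2, h3, fun v hv z hz => h4 v hv z hz, fun v hv z hz => h5 v hv z hz, ?_⟩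
  intro e w hw hwK
  by_cases hcol : c e = some a ∨ c e = some b
  · apply h6
    intro u hu huK
    exact hwK (hcl e u w hu hw hcol huK)
  · push Not at hcol
    cases he : c e with
    | none => rw [h2, he]
    | some z =>
      rw [he] at hcol
      refine (h3 e z ?_ ?_).mpr he
      · rintro rfl
        exact hcol.1 rfl
      · rintro rfl
        exact hcol.2 rfl

lemma vne (h : TT G n y f pr c) {i j : ℕ} (hi : i ≤ n) (hj : j ≤ n) (hij : i ≠ j) :
    y i ≠ y j := fun h1 => hij (h.inj i hi j hj h1)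

/-- exchange at the last vertex -/
lemma exn [Finite V] (IHn : ∀ n' < n, EL G k p n') (h : TT G n y f pr c)
    (hp : ∀ t, p ≤ t → t < n → pr t = t) {i j : ℕ} (hij : i < j) (hj : j < n) {a b : Fin k}
    (ha : G.Miss c (y i) a) (hb : G.Miss c (y j) b) (hn : G.Miss c (y n) a)
    (hu : ∀ t, 1 ≤ t → t < j → c (f t) ≠ some a) :
    ∃ c' : E → Option (Fin k), TT G n y f pr c' ∧ G.Miss c' (y j) b ∧ G.Miss c' (y n) b := by
  have hm := kc IHn h hp hij hj ha hb hu
  obtain ⟨s1, s2, _⟩ := sep h.pp ha hb hn (vne h (by omega) hj.le (by omega))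
    (vne h le_rfl (by omega) (by omega)) (vne h le_rfl hj.le (by omega)) hm
  obtain ⟨c', g1, g2, g3, g4, g5⟩ := G.swap_comp h.pp a b (y n) hn
  have ma : G.Miss c' (y i) a := g5 _ s1 a ha
  have mb : G.Miss c' (y j) b := g5 _ s2 b hb
  refine ⟨c', ?_, mb, g4⟩
  apply ttswap h g1 g2 g3
  intro t ht ht1 x hx hc
  have htj : j ≤ t := by
    by_contra hcon
    rcases hx with rfl | rfl
    · exact hu t ht1 (by omega) hc
    · exact unused IHn h hp hj hb ht1 (by omega) hc
  exact Or.inr ⟨⟨i, by omega, ma⟩, ⟨j, htj, mb⟩⟩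

/-- exchange on the component of `y j` -/
lemma exq [Finite V] (IHn : ∀ n' < n, EL G k p n') (h : TT G n y f pr c)
    (hp : ∀ t, p ≤ t → t < n → pr t = t) {i j : ℕ} (hij : i < j) (hj : j < n) {a b : Fin k}
    (ha : G.Miss c (y i) a) (hb : G.Miss c (y j) b)
    (hn : G.Miss c (y n) a ∨ G.Miss c (y n) b)
    (hu : ∀ t, 1 ≤ t → t < j → c (f t) ≠ some a) :
    ∃ c' : E → Option (Fin k), TT G n y f pr c' ∧ G.Miss c' (y i) b ∧ G.Miss c' (y j) a ∧
      (∀ z, G.Miss c (y n) z → G.Miss c' (y n) z) ∧
      (∀ e x, x ≠ a → x ≠ b → (c' e = some x ↔ c e = some x)) ∧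
      (∀ e, y n ∈ G.ends e → c' e = c e) := by
  have hm := kc IHn h hp hij hj ha hb hu
  have s3 := sep3 h.pp ha hb hn (vne h (by omega) hj.le (by omega))
    (vne h le_rfl (by omega) (by omega)) (vne h le_rfl hj.le (by omega)) hm
  obtain ⟨c', g1, g2, g3, g4, g5, g6⟩ := swf h.pp b a (y j) hb
  have ma : G.Miss c' (y i) b := by
    have := g4 _ hm a ha
    rw [Equiv.swap_apply_right] at this
    exact this
  have mb : G.Miss c' (y j) a := by
    have := g4 (y j) ⟨0, by simp⟩ b hb
    rw [Equiv.swap_apply_left] at this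
    exact this
  refine ⟨c', ?_, ma, mb, fun z hz => g5 _ s3 z hz, fun e x h1 h2 => g3 e x h2 h1,
    fun e he => g6 e _ he s3⟩
  apply ttswap h g1 g2 g3
  intro t ht ht1 x hx hc
  have htj : j ≤ t := by
    by_contra hcon
    rcases hx with rfl | rfl
    · exact unused IHn h hp hj hb ht1 (by omega) hc
    · exact hu t ht1 (by omega) hc
  exact Or.inr ⟨⟨i, by omega, ma⟩, ⟨j, htj, mb⟩⟩

/-- case (1a) -/
lemma c1a [Finite V] [Finite E] {Δ : ℕ} (hdeg : ∀ u, G.degree u ≤ Δ) (hk : Δ + 1 ≤ k)
    (hp1 : 1 ≤ p) (IHn : ∀ n' < n, EL G k p n') :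
    ∀ d, 1 ≤ d → ∀ (y : ℕ → V) (f : ℕ → E) (pr : ℕ → ℕ) (c : E → Option (Fin k)),
      TT G n y f pr c → (∀ t, p ≤ t → t < n → pr t = t) → ∀ i, p ≤ i → i + d = n → ∀ a,
      G.Miss c (y i) a → G.Miss c (y n) a → False := by
  classical
  intro d hd
  induction d, hd using Nat.le_induction with
  | base =>
    intro y f pr c h hp i hpi hin a hi ha
    subst hin
    have he := h.ed i (by omega)
    rw [hp i hpi (by omega)] at he
    obtain ⟨b, hb, j, hj, hjb⟩ := h.col i (by omega) (by omega)
    have hyi : y i ∈ G.ends (f i) := by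
      rw [he]
      simp
    have hji : j < i := by
      rcases Nat.lt_or_ge j i with h1 | h1
      · exact h1
      · exfalso
        have : j = i := by omega
        subst this
        exact hjb (f j) hyi hb
    have hpp := Pool.Agent.W880.KG.pp_update h.pp (f i) (y i) (y (i + 1)) he a hi ha
    have hoff : ∀ j < i, y j ∉ G.ends (f i) := by
      intro j hj hmem
      rw [he, Sym2.mem_iff] at hmem
      rcases hmem with h1 | h1
      · have := h.inj j (by omega) i (by omega) h1
        omega
      · have := h.inj j (by omega) (i + 1) (by omega) h1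
        omega
    have hmiss : ∀ j < i, ∀ x, G.Miss c (y j) x →
        G.Miss (Function.update c (f i) (some a)) (y j) x := by
      intro j hj x hx e he'
      have h1 : e ≠ f i := by
        rintro rfl
        exact hoff j hj he'
      rw [Function.update_of_ne h1]
      exact hx e he'
    have hfne : ∀ t < i, f t ≠ f i := by
      intro t ht h1
      have h2 := h.le t (by omega)
      apply hoff (pr t) (by omega)
      rw [← h1, h.ed t (by omega)]
      simp
    have hT : TT G i y f pr (Function.update c (f i) (some a)) := by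
      refine ⟨hpp, fun s hs t ht => h.inj s (by omega) t (by omega), fun t ht => h.le t (by omega),
        fun t ht => h.ed t (by omega), ?_, ?_⟩
      · intro e
        by_cases h1 : e = f i
        · rw [h1, Function.update_self]
          constructor
          · intro h2
            simp at h2
          · intro h2
            exact absurd h2.symm (hfne 0 (by omega))
        · rw [Function.update_of_ne h1]
          exact h.none_iff e
      · intro t ht ht1
        obtain ⟨x, hx, s, hs, hsx⟩ := h.col t (by omega) ht1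
        refine ⟨x, ?_, s, hs, hmiss s (by omega) x hsx⟩
        rw [Function.update_of_ne (hfne t ht)]
        exact hx
    refine IHn i (by omega) y f pr _ hT (fun t h1 h2 => hp t h1 (by omega)) j i (by omega) le_rfl
      (by omega) b (hmiss j hji b hjb) ?_
    intro e he' h1
    by_cases h2 : e = f i
    · rw [h2, Function.update_self] at h1
      have hab : a = b := Option.some.inj h1
      exact hi (f i) hyi (by rw [hb, hab])
    · rw [Function.update_of_ne h2] at h1
      exact h2 (h.pp e (f i) (y i) b he' hyi h1 hb)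
  | succ d hd ihd =>
    intro y f pr c h hp i hpi hin a hi ha
    obtain ⟨b, hb⟩ := G.exists_miss c (y (i + 1)) (hdeg _) hk
    obtain ⟨c', h1, h2, h3⟩ := exn IHn h hp (i := i) (j := i + 1) (by omega) (by omega) hi hb ha
      (by
        intro t ht1 ht hc
        rcases Nat.lt_or_ge t i with hti | hti
        · exact unused IHn h hp (by omega) hi ht1 hti hc
        · have : t = i := by omega
          subst this
          have he := h.ed t (by omega)
          rw [hp t hpi (by omega)] at he
          exact hi (f t) (by rw [he]; simp) hc)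
    exact ihd y f pr c' h1 hp (i + 1) (by omega) (by omega) b h2 h3

/-- a free colour -/
lemma free [Finite E] {Δ q : ℕ} (hdeg : ∀ u, G.degree u ≤ Δ) (hk : Δ + 1 ≤ k)
    (IHn : ∀ n' < n, EL G k (q + 2) n') (h : TT G n y f pr c)
    (hp : ∀ t, q + 2 ≤ t → t < n → pr t = t) (hq : 1 ≤ q) (hqn : q + 2 ≤ n) :
    ∃ s ≤ q, ∃ α, G.Miss c (y s) α ∧ ∀ t, 1 ≤ t → t < q + 2 → c (f t) ≠ some α := by
  classical
  have hex : ∀ j, ∃ a, G.Miss c (y j) a := fun j => G.exists_miss c (y j) (hdeg _) hk
  choose g hg using hex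
  have hb0 : ∃ b, b ≠ g 0 ∧ G.Miss c (y 0) b := by
    obtain ⟨b, hb⟩ := G.exists_miss (Function.update c (f 0) (some (g 0))) (y 0) (hdeg _) hk
    have h0 : y 0 ∈ G.ends (f 0) := by
      have h1 := h.ed 0 (by omega)
      have h2 := h.le 0 (by omega)
      have h3 : pr 0 = 0 := by omega
      rw [h3] at h1
      rw [h1]
      simp
    refine ⟨b, ?_, ?_⟩
    · rintro rfl
      apply hb (f 0) h0
      rw [Function.update_self]
    · intro e he hc
      have hne : e ≠ f 0 := by
        rintro rfl
        rw [(h.none_iff _).mpr rfl] at hc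
        simp at hc
      apply hb e he
      rw [Function.update_of_ne hne]
      exact hc
  obtain ⟨b0, hb0, hb0'⟩ := hb0
  set H : ℕ → Fin k := fun t => if t ≤ q then g t else b0 with hH
  have hinj : ∀ s < q + 2, ∀ t < q + 2, s < t → H s ≠ H t := by
    intro s hs t ht hst hst'
    have hs' : s ≤ q := by omega
    rw [hH] at hst'
    simp only [if_pos hs'] at hst'
    by_cases htq : t ≤ q
    · rw [if_pos htq] at hst'
      refine out IHn h hp hst (by omega) (hg s) ?_
      rw [hst']
      exact hg t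
    · rw [if_neg htq] at hst'
      rcases Nat.eq_zero_or_pos s with h0 | h0
      · subst h0
        exact hb0 hst'.symm
      · refine out IHn h hp h0 (by omega) hb0' ?_
        rw [← hst']
        exact hg s
  by_contra hcon
  push Not at hcon
  have hused : ∀ t < q + 2, ∃ u, 1 ≤ u ∧ u < q + 2 ∧ c (f u) = some (H t) := by
    intro t ht
    rw [hH]
    by_cases htq : t ≤ q
    · simp only [if_pos htq]
      exact hcon t htq (g t) (hg t)
    · simp only [if_neg htq]
      exact hcon 0 (by omega) b0 hb0'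
  have hcard : (Finset.range (q + 2)).card ≤
      ((Finset.Icc 1 (q + 1)).image (fun u => c (f u))).card := by
    apply Finset.card_le_card_of_injOn (fun t => some (H t))
    · intro t ht
      obtain ⟨u, hu1, hu2, hu3⟩ := hused t (Finset.mem_range.1 (Finset.mem_coe.1 ht))
      rw [Finset.mem_coe, Finset.mem_image]
      exact ⟨u, Finset.mem_Icc.2 ⟨hu1, by omega⟩, hu3⟩
    · intro s hs t ht hst
      have hs' := Finset.mem_range.1 (Finset.mem_coe.1 hs)
      have ht' := Finset.mem_range.1 (Finset.mem_coe.1 ht)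
      have hst' : H s = H t := Option.some.inj hst
      rcases lt_trichotomy s t with h1 | h1 | h1
      · exact absurd hst' (hinj s hs' t ht' h1)
      · exact h1
      · exact absurd hst'.symm (hinj t ht' s hs' h1)
  have h2 : ((Finset.Icc 1 (q + 1)).image (fun u => c (f u))).card ≤ q + 1 := by
    refine Finset.card_image_le.trans ?_
    rw [Nat.card_Icc]
    omega
  rw [Finset.card_range] at hcard
  omega

/-- delete the last but one vertex -/
lemma del1 {q : ℕ} (IHp : ∀ p' < q + 2, ∀ n', EL G k p' n') (hq : 1 ≤ q)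
    (h : TT G (q + 2) y f pr c) (hpr : pr (q + 1) ≤ q) {κ : Fin k}
    (hκ : c (f (q + 1)) = some κ) {s : ℕ} (hs : s ≤ q) (hsκ : G.Miss c (y s) κ) {r : ℕ}
    (hr : r ≤ q) {η : Fin k} (h1 : G.Miss c (y r) η) (h2 : G.Miss c (y (q + 2)) η) : False := by
  have hy : ∀ t ≤ q, Function.update y (q + 1) (y (q + 2)) t = y t := fun t ht =>
    Function.update_of_ne (by omega) _ _
  have hf : ∀ t < q, Function.update f q (f (q + 1)) t = f t := fun t ht =>
    Function.update_of_ne (by omega) _ _
  have hpr' : ∀ t < q, Function.update pr q (pr (q + 1)) t = pr t := fun t ht =>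
    Function.update_of_ne (by omega) _ _
  have hT : TT G (q + 1) (Function.update y (q + 1) (y (q + 2)))
      (Function.update f q (f (q + 1))) (Function.update pr q (pr (q + 1))) c := by
    refine ⟨h.pp, ?_, ?_, ?_, ?_, ?_⟩
    · intro i hi j hj hij
      by_cases hi' : i = q + 1
      · by_cases hj' : j = q + 1
        · rw [hi', hj']
        · exfalso
          rw [hi', Function.update_self, hy j (by omega)] at hij
          have := h.inj _ le_rfl _ (by omega) hij
          omega
      · by_cases hj' : j = q + 1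
        · exfalso
          rw [hj', Function.update_self, hy i (by omega)] at hij
          have := h.inj _ (by omega) _ le_rfl hij
          omega
        · rw [hy i (by omega), hy j (by omega)] at hij
          exact h.inj _ (by omega) _ (by omega) hij
    · intro t ht
      rcases Nat.lt_or_ge t q with h3 | h3
      · rw [hpr' t h3]
        exact h.le t (by omega)
      · have : t = q := by omega
        subst this
        rw [Function.update_self]
        exact hpr
    · intro t ht
      rcases Nat.lt_or_ge t q with h3 | h3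
      · have h4 := h.le t (by omega)
        rw [hpr' t h3, hf t h3, hy (pr t) (by omega), hy (t + 1) (by omega)]
        exact h.ed t (by omega)
      · have : t = q := by omega
        subst this
        rw [Function.update_self, Function.update_self, Function.update_self, hy _ hpr]
        exact h.ed (t + 1) (by omega)
    · intro e
      rw [hf 0 (by omega)]
      exact h.none_iff e
    · intro t ht ht1
      rcases Nat.lt_or_ge t q with h3 | h3
      · obtain ⟨x, hx, u, hu, hux⟩ := h.col t (by omega) ht1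
        refine ⟨x, ?_, u, hu, ?_⟩
        · rw [hf t h3]
          exact hx
        · rw [hy u (by omega)]
          exact hux
      · have : t = q := by omega
        subst this
        refine ⟨κ, ?_, s, hs, ?_⟩
        · rw [Function.update_self]
          exact hκ
        · rw [hy s hs]
          exact hsκ
  refine IHp (q + 1) (by omega) (q + 1) _ _ _ c hT (fun t h3 h4 => by omega) r (q + 1) (by omega)
    le_rfl (by omega) η ?_ ?_
  · rw [hy r hr]
    exact h1
  · rw [Function.update_self]
    exact h2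

/-- case (1c) with an unused colour -/
lemma c1u [Finite V] [Finite E] {Δ q : ℕ} (hdeg : ∀ u, G.degree u ≤ Δ) (hk : Δ + 1 ≤ k)
    (hq : 1 ≤ q) (IHp : ∀ p' < q + 2, ∀ n', EL G k p' n') (IHn : ∀ n' < n, EL G k (q + 2) n')
    (hqn : q + 2 ≤ n) (h : TT G n y f pr c) (hp : ∀ t, q + 2 ≤ t → t < n → pr t = t)
    (hpr : pr (q + 1) ≤ q) {i : ℕ} (hi : i ≤ q) {η : Fin k} (h1 : G.Miss c (y i) η)
    (h2 : G.Miss c (y n) η) (hu : ∀ t, 1 ≤ t → t < q + 2 → c (f t) ≠ some η) : False := by
  rcases Nat.lt_or_ge (q + 2) n with hn | hn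
  · obtain ⟨γ, hγ⟩ := G.exists_miss c (y (q + 2)) (hdeg _) hk
    obtain ⟨c', g1, g2, g3⟩ := exn IHn h hp (i := i) (j := q + 2) (by omega) hn h1 hγ h2 hu
    exact c1a hdeg hk (by omega) IHn (n - (q + 2)) (by omega) y f pr c' g1 hp (q + 2) le_rfl
      (by omega) γ g2 g3
  · have : n = q + 2 := by omega
    subst this
    obtain ⟨κ, hκ, s', hs', hs'κ⟩ := h.col (q + 1) (by omega) (by omega)
    have hκη : κ ≠ η := by
      rintro rfl
      exact hu (q + 1) (by omega) (by omega) hκ
    rcases Nat.lt_or_ge q s' with h3 | h3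
    · have : s' = q + 1 := by omega
      subst this
      obtain ⟨c1, g1, g2, g3, g4, g5, g6⟩ := exq IHn h hp (i := i) (j := q + 1) (by omega)
        (by omega) h1 hs'κ (Or.inl h2) (fun t h4 h5 => hu t h4 (by omega))
      have hk1 : c1 (f (q + 1)) = some κ := by
        rw [g6 _ (by rw [h.ed (q + 1) (by omega)]; simp)]
        exact hκ
      obtain ⟨s, hs, α, hα, hαu⟩ := free hdeg hk IHn g1 hp hq le_rfl
      have hακ : κ ≠ α := by
        rintro rfl
        exact hαu (q + 1) (by omega) (by omega) hk1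
      obtain ⟨c2, k1, k2, k3, k4, k5, k6⟩ := exq IHn g1 hp (i := s) (j := q + 1) (by omega)
        (by omega) hα g3 (Or.inr (g4 η h2)) (fun t h4 h5 => hαu t h4 (by omega))
      refine del1 IHp hq k1 hpr ((k5 _ κ hακ hκη).mpr hk1) hi
        (miss_keep k5 hακ hκη g2) hs k2 (k4 η (g4 η h2))
    · exact del1 IHp hq h hpr hκ h3 hs'κ hi h1 h2

/-- add a vertex -/
lemma extend {m : ℕ} (h : TT G m y f pr c) (hm : 1 ≤ m) {j : ℕ} (hj : j ≤ m) {e : E} {u : V}
    {z : Fin k} (he : G.ends e = s(y j, u)) (hz : c e = some z) (hu : ∀ t ≤ m, y t ≠ u) {s : ℕ}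
    (hs : s ≤ m) (hsz : G.Miss c (y s) z) :
    TT G (m + 1) (Function.update y (m + 1) u) (Function.update f m e)
      (Function.update pr m j) c := by
  have hy : ∀ t ≤ m, Function.update y (m + 1) u t = y t := fun t ht =>
    Function.update_of_ne (by omega) _ _
  have hf : ∀ t < m, Function.update f m e t = f t := fun t ht =>
    Function.update_of_ne (by omega) _ _
  have hpr : ∀ t < m, Function.update pr m j t = pr t := fun t ht =>
    Function.update_of_ne (by omega) _ _
  refine ⟨h.pp, ?_, ?_, ?_, ?_, ?_⟩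
  · intro a ha b hb hab
    by_cases ha' : a = m + 1
    · by_cases hb' : b = m + 1
      · rw [ha', hb']
      · exfalso
        rw [ha', Function.update_self, hy b (by omega)] at hab
        exact hu b (by omega) hab.symm
    · by_cases hb' : b = m + 1
      · exfalso
        rw [hb', Function.update_self, hy a (by omega)] at hab
        exact hu a (by omega) hab
      · rw [hy a (by omega), hy b (by omega)] at hab
        exact h.inj _ (by omega) _ (by omega) hab
  · intro t ht
    rcases Nat.lt_or_ge t m with h3 | h3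
    · rw [hpr t h3]
      exact h.le t h3
    · have : t = m := by omega
      subst this
      rw [Function.update_self]
      exact hj
  · intro t ht
    rcases Nat.lt_or_ge t m with h3 | h3
    · have h4 := h.le t h3
      rw [hpr t h3, hf t h3, hy (pr t) (by omega), hy (t + 1) (by omega)]
      exact h.ed t h3
    · have : t = m := by omega
      subst this
      rw [Function.update_self, Function.update_self, Function.update_self, hy j hj]
      exact he
  · intro e'
    rw [hf 0 (by omega)]
    exact h.none_iff e'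
  · intro t ht ht1
    rcases Nat.lt_or_ge t m with h3 | h3
    · obtain ⟨x, hx, v, hv, hvx⟩ := h.col t h3 ht1
      refine ⟨x, ?_, v, hv, ?_⟩
      · rw [hf t h3]
        exact hx
      · rw [hy v (by omega)]
        exact hvx
    · have : t = m := by omega
      subst this
      refine ⟨z, ?_, s, hs, ?_⟩
      · rw [Function.update_self]
        exact hz
      · rw [hy s hs]
        exact hsz

/-- vertices reached from `y 0, ..., y q` by trees of small path number -/
def RR (G : MGraph V E) (q : ℕ) (y : ℕ → V) (c : E → Option (Fin k)) : Set V :=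
  {v | (∃ j ≤ q, v = y j) ∨ ∃ (n' : ℕ) (y' : ℕ → V) (f' : ℕ → E) (pr' : ℕ → ℕ),
    TT G n' y' f' pr' c ∧ q ≤ n' ∧ (∀ t ≤ q, y' t = y t) ∧
    (∀ t, q + 1 ≤ t → t < n' → pr' t = t) ∧ y' n' = v}

lemma RR_closed {q : ℕ} (hq : 1 ≤ q) (hqn : q ≤ n) (h : TT G n y f pr c) {i s : ℕ} (hi : i ≤ q)
    (hs : s ≤ q) {η α : Fin k} (h1 : G.Miss c (y i) η) (h2 : G.Miss c (y s) α) {e : E} {v u : V}
    (he : G.ends e = s(v, u)) (hc : c e = some η ∨ c e = some α) (hv : v ∈ RR G q y c) :
    u ∈ RR G q y c := by
  obtain ⟨z, r, hr, hz, hrz⟩ : ∃ (z : Fin k) (r : ℕ), r ≤ q ∧ c e = some z ∧ G.Miss c (y r) z := by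
    rcases hc with hc | hc
    · exact ⟨η, i, hi, hc, h1⟩
    · exact ⟨α, s, hs, hc, h2⟩
  rcases hv with ⟨j, hj, rfl⟩ | ⟨n', y', f', pr', hT, hn', hy', hpr', rfl⟩
  · by_cases hu : ∃ j' ≤ q, u = y j'
    · exact Or.inl hu
    · push Not at hu
      right
      refine ⟨q + 1, _, _, _, extend (pre h hqn) hq hj he hz
        (fun t ht h3 => hu t ht h3.symm) hr hrz, by omega, ?_, ?_, ?_⟩
      · intro t ht
        exact Function.update_of_ne (by omega) _ _
      · intro t ht ht'
        omega
      · rw [Function.update_self]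
  · by_cases hu : ∃ j' ≤ n', u = y' j'
    · obtain ⟨j', hj', rfl⟩ := hu
      rcases Nat.lt_or_ge q j' with h3 | h3
      · right
        exact ⟨j', y', f', pr', pre hT hj', by omega, hy', fun t ht ht' => hpr' t ht (by omega),
          rfl⟩
      · left
        exact ⟨j', h3, hy' j' h3⟩
    · push Not at hu
      right
      refine ⟨n' + 1, _, _, _, extend hT (by omega) le_rfl he hz
        (fun t ht h3 => hu t ht h3.symm) (hr.trans hn') (by rw [hy' r hr]; exact hrz), by omega,
        ?_, ?_, ?_⟩
      · intro t ht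
        rw [Function.update_of_ne (by omega)]
        exact hy' t ht
      · intro t ht ht'
        rcases Nat.lt_or_ge t n' with h3 | h3
        · rw [Function.update_of_ne (by omega)]
          exact hpr' t ht h3
        · have : t = n' := by omega
          subst this
          rw [Function.update_self]
      · rw [Function.update_self]

/-- case (1c) -/
lemma c1c [Finite V] [Finite E] {Δ q : ℕ} (hdeg : ∀ u, G.degree u ≤ Δ) (hk : Δ + 1 ≤ k)
    (hq : 1 ≤ q) (IHp : ∀ p' < q + 2, ∀ n', EL G k p' n') (IHn : ∀ n' < n, EL G k (q + 2) n')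
    (hqn : q + 2 ≤ n) (h : TT G n y f pr c) (hp : ∀ t, q + 2 ≤ t → t < n → pr t = t)
    (hpr : pr (q + 1) ≤ q) {i : ℕ} (hi : i ≤ q) {η : Fin k} (h1 : G.Miss c (y i) η)
    (h2 : G.Miss c (y n) η) : False := by
  obtain ⟨s, hs, α, hα, hαu⟩ := free hdeg hk IHn h hp hq hqn
  by_cases hηα : η = α
  · subst hηα
    exact c1u hdeg hk hq IHp IHn hqn h hp hpr hi h1 h2 hαu
  · have hyn : y n ∉ RR G q y c := by
      rintro (⟨j, hj, hj'⟩ | ⟨n', y', f', pr', hT, hn', hy', hpr', hv⟩)
      · have := h.inj n le_rfl j (by omega) hj'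
        omega
      · have hin : i ≠ n' := by
          rintro rfl
          rw [hy' i hi] at hv
          have := h.inj i (by omega) n le_rfl hv
          omega
        refine IHp (q + 1) (by omega) n' y' f' pr' c hT hpr' i n' (by omega) le_rfl hin η ?_ ?_
        · rw [hy' i hi]
          exact h1
        · rw [hv]
          exact h2
    have hcl : ∀ e u w, u ∈ G.ends e → w ∈ G.ends e → (c e = some η ∨ c e = some α) →
        u ∈ RR G q y c → w ∈ RR G q y c := by
      intro e u w hu hw hcol huR
      by_cases huw : w = u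
      · rw [huw]
        exact huR
      have hends : G.ends e = s(u, w) := (Sym2.mem_and_mem_iff (Ne.symm huw)).mp ⟨hu, hw⟩
      exact RR_closed hq (by omega) h hi hs h1 hα hends hcol huR
    have hR : ∀ j ≤ q, y j ∈ RR G q y c := fun j hj => Or.inl ⟨j, hj, rfl⟩
    obtain ⟨c', g1, g2, g3, g4, g5, g6, g7⟩ := Pool.Agent.W191.KG.SWP.main G h.pp η α
      (RR G q y c)ᶜ (fun e u w hu hw hcol huK hwR => huK (hcl e w u hw hu hcol hwR))
    have hkeep : ∀ v ∈ RR G q y c, ∀ x, G.Miss c v x → G.Miss c' v x :=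
      fun v hv x hx => g5 v (fun hcon => hcon hv) x hx
    have hedge : ∀ e v, v ∈ G.ends e → v ∈ RR G q y c → c' e = c e := by
      intro e v hv hvR
      by_cases hcol : c e = some η ∨ c e = some α
      · apply g6
        intro u hu huK
        exact huK (hcl e v u hv hu hcol hvR)
      · push Not at hcol
        cases he : c e with
        | none => rw [g2, he]
        | some z =>
          rw [he] at hcol
          refine (g3 e z ?_ ?_).mpr he
          · rintro rfl
            exact hcol.1 rfl
          · rintro rfl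
            exact hcol.2 rfl
    have mi : G.Miss c' (y i) η := hkeep _ (hR i hi) η h1
    have ms' : G.Miss c' (y s) α := hkeep _ (hR s hs) α hα
    have mn : G.Miss c' (y n) α := by
      have := g4 (y n) hyn η h2
      rw [Equiv.swap_apply_left] at this
      exact this
    have hearly : ∀ t, t < q + 2 → c' (f t) = c (f t) := by
      intro t ht
      have hprt : pr t ≤ q := by
        rcases Nat.lt_or_ge t (q + 1) with h3 | h3
        · have := h.le t (by omega)
          omega
        · have : t = q + 1 := by omega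
          rw [this]
          exact hpr
      exact hedge (f t) (y (pr t)) (by rw [h.ed t (by omega)]; simp) (hR _ hprt)
    have hT : TT G n y f pr c' := by
      apply ttswap h g1 g2 g3
      intro t ht ht1 x hx hc
      rcases Nat.lt_or_ge t (q + 2) with h3 | h3
      · left
        have hxη : x = η := by
          rcases hx with hx | hx
          · exact hx
          · exfalso
            rw [hx] at hc
            exact hαu t ht1 h3 hc
        subst hxη
        refine ⟨by rw [hearly t h3]; exact hc, ?_⟩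
        obtain ⟨x', hx', s', hs', hs'x⟩ := h.col t ht ht1
        rw [hc] at hx'
        have : x = x' := Option.some.inj hx'
        subst this
        rcases Nat.lt_or_ge q s' with h4 | h4
        · exact ⟨i, by omega, mi⟩
        · exact ⟨s', hs', hkeep _ (hR s' h4) x hs'x⟩
      · right
        exact ⟨⟨i, by omega, mi⟩, ⟨s, by omega, ms'⟩⟩
    refine c1u hdeg hk hq IHp IHn hqn hT hp hpr hs ms' mn ?_
    intro t ht1 ht
    rw [hearly t ht]
    exact hαu t ht1 ht

/-- path number at least three -/
lemma big [Finite V] [Finite E] {Δ q : ℕ} (hdeg : ∀ u, G.degree u ≤ Δ) (hk : Δ + 1 ≤ k)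
    (hq : 1 ≤ q) (IHp : ∀ p' < q + 2, ∀ n', EL G k p' n') (IHn : ∀ n' < n, EL G k (q + 2) n')
    (hqn : q + 2 ≤ n) (h : TT G n y f pr c) (hp : ∀ t, q + 2 ≤ t → t < n → pr t = t)
    (hpr : pr (q + 1) ≤ q) {i : ℕ} (hi : i < n) {η : Fin k} (h1 : G.Miss c (y i) η)
    (h2 : G.Miss c (y n) η) : False := by
  rcases Nat.lt_or_ge i (q + 2) with h3 | h3
  · rcases Nat.lt_or_ge i (q + 1) with h4 | h4
    · exact c1c hdeg hk hq IHp IHn hqn h hp hpr (by omega) h1 h2
    · have : i = q + 1 := by omega
      subst this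
      obtain ⟨s, hs, α, hα, hαu⟩ := free hdeg hk IHn h hp hq hqn
      obtain ⟨c2, k1, k2, k3, k4, k5, k6⟩ := exq IHn h hp (i := s) (j := q + 1) (by omega)
        (by omega) hα h1 (Or.inr h2) (fun t h4 h5 => hαu t h4 (by omega))
      exact c1c hdeg hk hq IHp IHn hqn k1 hp hpr hs k2 (k4 η h2)
  · exact c1a hdeg hk (by omega) IHn (n - i) (by omega) y f pr c h hp i h3 (by omega) η h1 h2

/-- path number zero: Kierstead -/
lemma zero [Finite V] [Finite E] {Δ : ℕ} (hG : ¬ G.Colorable k) (hdeg : ∀ u, G.degree u ≤ Δ)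
    (hk : Δ + 1 ≤ k) (n : ℕ) : EL G k 0 n := by
  intro y f pr c h hp i j hi hj hij a ha hb
  have hKP : KP G n y f c := by
    refine ⟨h.pp, h.inj, ?_, h.none_iff, ?_⟩
    · intro t ht
      have := h.ed t ht
      rw [hp t (by omega) ht] at this
      exact this
    · intro t ht ht1
      obtain ⟨x, hx, s, hs, hsx⟩ := h.col t ht ht1
      refine ⟨x, hx, s, ?_, hsx⟩
      rcases Nat.lt_or_ge s t with h1 | h1
      · exact h1
      · exfalso
        have : s = t := by omega
        subst this
        have he := h.ed s ht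
        rw [hp s (by omega) ht] at he
        exact hsx (f s) (by rw [he]; simp) hx
  have hn : 1 ≤ n := by omega
  rcases lt_or_gt_of_ne hij with h1 | h1
  · exact Pool.Agent.W880.KG.main hG hdeg hk hKP hn i j h1 hj a ha hb
  · exact Pool.Agent.W880.KG.main hG hdeg hk hKP hn j i h1 hi a hb ha

/-- path number two: exchange the names of the first two vertices -/
lemma two (IH0 : ∀ n', EL G k 0 n') (hn : 2 ≤ n) (h : TT G n y f pr c)
    (hp : ∀ t, 2 ≤ t → t < n → pr t = t) (hpr : pr 1 = 0) {i j : ℕ} (hi : i ≤ n) (hj : j ≤ n)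
    (hij : i ≠ j) {a : Fin k} (ha : G.Miss c (y i) a) (hb : G.Miss c (y j) a) : False := by
  have hσ : ∀ t, 2 ≤ t → Equiv.swap 0 1 t = t := fun t ht =>
    Equiv.swap_apply_of_ne_of_ne (by omega) (by omega)
  have hσle : ∀ t m, 1 ≤ m → t ≤ m → Equiv.swap 0 1 t ≤ m := by
    intro t m hm ht
    rcases Nat.lt_or_ge t 2 with h1 | h1
    · have : t = 0 ∨ t = 1 := by omega
      rcases this with rfl | rfl
      · rw [Equiv.swap_apply_left]
        exact hm
      · rw [Equiv.swap_apply_right]
        omega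
    · rw [hσ t h1]
      exact ht
  have hσσ : ∀ t, Equiv.swap (0 : ℕ) 1 (Equiv.swap 0 1 t) = t := fun t =>
    Equiv.swap_apply_self _ _ _
  have hT : TT G n (fun t => y (Equiv.swap 0 1 t)) f (fun t => t) c := by
    refine ⟨h.pp, ?_, fun t _ => le_rfl, ?_, h.none_iff, ?_⟩
    · intro s hs t ht hst
      have := h.inj _ (hσle s n (by omega) hs) _ (hσle t n (by omega) ht) hst
      exact (Equiv.swap (0 : ℕ) 1).injective this
    · intro t ht
      rcases Nat.lt_or_ge t 2 with h1 | h1
      · have : t = 0 ∨ t = 1 := by omega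
        rcases this with rfl | rfl
        · have h3 := h.ed 0 (by omega)
          have h4 := h.le 0 (by omega)
          have h5 : pr 0 = 0 := by omega
          rw [h5] at h3
          show G.ends (f 0) = s(y (Equiv.swap 0 1 0), y (Equiv.swap 0 1 (0 + 1)))
          rw [Equiv.swap_apply_left, zero_add, Equiv.swap_apply_right, h3, Sym2.eq_swap]
        · have h3 := h.ed 1 (by omega)
          rw [hpr] at h3
          show G.ends (f 1) = s(y (Equiv.swap 0 1 1), y (Equiv.swap 0 1 (1 + 1)))
          rw [Equiv.swap_apply_right, hσ (1 + 1) (by omega)]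
          exact h3
      · have h3 := h.ed t ht
        rw [hp t h1 ht] at h3
        show G.ends (f t) = s(y (Equiv.swap 0 1 t), y (Equiv.swap 0 1 (t + 1)))
        rw [hσ t h1, hσ (t + 1) (by omega)]
        exact h3
    · intro t ht ht1
      obtain ⟨x, hx, s, hs, hsx⟩ := h.col t ht ht1
      refine ⟨x, hx, Equiv.swap 0 1 s, hσle s t ht1 hs, ?_⟩
      show G.Miss c (y (Equiv.swap 0 1 (Equiv.swap 0 1 s))) x
      rw [hσσ]
      exact hsx
  refine IH0 n _ f _ c hT (fun t _ _ => rfl) (Equiv.swap 0 1 i) (Equiv.swap 0 1 j)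
    (hσle i n (by omega) hi) (hσle j n (by omega) hj)
    (fun h1 => hij ((Equiv.swap (0 : ℕ) 1).injective h1)) a ?_ ?_
  · show G.Miss c (y (Equiv.swap 0 1 (Equiv.swap 0 1 i))) a
    rw [hσσ]
    exact ha
  · show G.Miss c (y (Equiv.swap 0 1 (Equiv.swap 0 1 j))) a
    rw [hσσ]
    exact hb

end

theorem all {V E : Type} [Finite V] [Finite E] {G : MGraph V E} {k Δ : ℕ}
    (hG : ¬ G.Colorable k) (hdeg : ∀ u, G.degree u ≤ Δ) (hk : Δ + 1 ≤ k) :
    ∀ p n : ℕ, EL G k p n := by
  intro p
  induction p using Nat.strong_induction_on with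
  | _ p IHp =>
  intro n
  induction n using Nat.strong_induction_on with
  | _ n IHn =>
  rcases Nat.eq_zero_or_pos p with hp0 | hp0
  · subst hp0
    exact zero hG hdeg hk n
  intro y f pr c h hp i j hi hj hij a ha hb
  -- reduction to smaller path number
  by_cases hsmall : p - 1 < n → pr (p - 1) = p - 1
  · refine IHp (p - 1) (by omega) n y f pr c h ?_ i j hi hj hij a ha hb
    intro t h1 h2
    rcases Nat.lt_or_ge t p with h3 | h3
    · have : t = p - 1 := by omega
      subst this
      exact hsmall h2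
    · exact hp t h3 h2
  · push Not at hsmall
    obtain ⟨hpn, hne⟩ := hsmall
    have hle := h.le (p - 1) hpn
    obtain ⟨q, rfl⟩ : ∃ q, p = q + 2 := ⟨p - 2, by omega⟩
    have e1 : q + 2 - 1 = q + 1 := by omega
    rw [e1] at hpn hne hle
    rcases Nat.eq_zero_or_pos q with hq0 | hq0
    · subst hq0
      rw [zero_add] at hpn hne hle
      exact two (fun n' => IHp 0 (by omega) n') (by omega) h hp (by omega) hi hj hij ha hb
    · -- the failing pair contains the last vertex
      by_cases hin : i = n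
      · subst hin
        exact big hdeg hk hq0 IHp IHn (by omega) h hp (by omega) (i := j) (by omega) hb ha
      · by_cases hjn : j = n
        · subst hjn
          exact big hdeg hk hq0 IHp IHn (by omega) h hp (by omega) (i := i) (by omega) ha hb
        · rcases lt_or_gt_of_ne hij with h1 | h1
          · exact out IHn h hp h1 (by omega) ha hb
          · exact out IHn h hp h1 (by omega) hb ha

theorem main : PartTAS := by
  intro V E _ _ G k Δ hG hdeg hk n y f pr c h _ i j hij hj a ha hb
  exact all hG hdeg hk n n y f pr c h (fun t h1 h2 => by omega) i j (by omega) hj (by omega) a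
    ha hb

end Pool.Agent.W131.KG
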